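import Pool.Agent.helper8.T7.SpecSM

set_option autoImplicit false

/-! Row t7:SMF (MP_16912e_nt): the tuples with given conductor and label -/

namespace Pool.Agent.T7

open Finset NumberField Pool.Agent.helper3.FT Pool.Agent.helper47.RA Pool.Agent.T5 Pool.Agent.T6 Pool.Agent.T6L
open Pool.Agent.helper26.T5 (nn LEMB LPR LAW LP LPA HLN HPR HSQ HID HCL HGA)

/-- the norm of `θ` -/
theorem SMF_norm {K : Type} [Field K] [NumberField K] (Q : QF K) (f : ℕ) (t : Tpl)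
    (α γ u v θ θ' : 𝓞 K) (h : Els Q f t α γ u v θ θ') (hl : lam t ≠ 0) :
    θ * Q.cj θ = ((t.2.2.2 ^ 5 : ℤ) : 𝓞 K) := by
  have h1 := h.e3
  have h2 := congrArg Q.cj h1
  rw [map_mul, map_pow, Q.cj_cj, map_mul, map_pow, Q.cj_int] at h2
  have hn1 := h.nα
  have hn2 := h.nγ
  have hΛ : ((lam t : ℤ) : 𝓞 K) ≠ 0 := by exact_mod_cast hl
  have h3 : ((lam t : ℤ) : 𝓞 K) ^ 4 * (θ * Q.cj θ) = ((lam t : ℤ) : 𝓞 K) ^ 4 * ((t.2.2.2 ^ 5 : ℤ) : 𝓞 K) := by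
    push_cast
    calc ((lam t : ℤ) : 𝓞 K) ^ 4 * (θ * Q.cj θ)
        = (((lam t : ℤ) : 𝓞 K) ^ 2 * θ) * (((lam t : ℤ) : 𝓞 K) ^ 2 * Q.cj θ) := by ring
      _ = (α ^ 2 * Q.cj γ) * (Q.cj α ^ 2 * γ) := by rw [← h1, ← h2]
      _ = (α * Q.cj α) ^ 2 * (γ * Q.cj γ) := by ring
      _ = _ := by
        rw [hn1, hn2]
        ring
  exact mul_left_cancel₀ (pow_ne_zero 4 hΛ) h3

/-- `θ` is determined by `Y` and the trace. -/
theorem SMF_ext {K : Type} [Field K] [NumberField K] (Q : QF K) (θ η : 𝓞 K) (hY : Q.Y θ = Q.Y η)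
    (x y : ℤ) (hx : θ = x + Q.Y θ * Q.ω) (hy : η = y + Q.Y η * Q.ω)
    (hT : 2 * x + Q.t * Q.Y θ = 2 * y + Q.t * Q.Y η) : θ = η := by
  have h : x = y := by
    rw [hY] at hT
    omega
  rw [hx, hy, h, hY]

/-- the square of the trace -/
theorem SMF_sq {K : Type} [Field K] [NumberField K] (Q : QF K) (θ : 𝓞 K) (x N : ℤ)
    (hx : θ = x + Q.Y θ * Q.ω) (hN : θ * Q.cj θ = (N : 𝓞 K)) :
    (2 * x + Q.t * Q.Y θ) ^ 2 = Q.D * Q.Y θ ^ 2 + 4 * N := by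
  have h1 : N = x ^ 2 + Q.t * x * Q.Y θ - Q.k * Q.Y θ ^ 2 := by
    have h2 := Q.norm_form x (Q.Y θ)
    rw [← hx, hN] at h2
    exact QF.int_inj h2
  rw [h1]
  have e1 := Q.hk
  have e2 := Q.t_sq
  linear_combination (Q.Y θ) ^ 2 * e2 - (Q.Y θ) ^ 2 * e1

/-- at most four elements with given norm and given `|Y|` -/
theorem SMF_four {K : Type} [Field K] [NumberField K] (Q : QF K) (r N : ℤ) (S : Finset (𝓞 K))
    (hS : ∀ θ ∈ S, |Q.Y θ| = r ∧ θ * Q.cj θ = (N : 𝓞 K)) : S.card ≤ 4 := by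
  classical
  rcases S.eq_empty_or_nonempty with h0 | ⟨θ₀, hθ₀⟩
  · rw [h0]; simp
  · choose re hre using Q.exists_re
    set T : 𝓞 K → ℤ := fun θ => 2 * re θ + Q.t * Q.Y θ with hT
    have hinj : Set.InjOn (fun θ => (Q.Y θ, T θ)) (S : Set (𝓞 K)) := by
      intro a _ b _ hab
      rw [Prod.mk.injEq] at hab
      exact SMF_ext Q a b hab.1 (re a) (re b) (hre a) (hre b) hab.2
    have hmaps : Set.MapsTo (fun θ => (Q.Y θ, T θ)) (S : Set (𝓞 K))
        ((({Q.Y θ₀, - Q.Y θ₀} : Finset ℤ) ×ˢ ({T θ₀, - T θ₀} : Finset ℤ) : Finset (ℤ × ℤ)) : Set (ℤ × ℤ)) := by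
      intro a ha
      have ha1 := hS a ha
      have h01 := hS θ₀ hθ₀
      have hYY : Q.Y a = Q.Y θ₀ ∨ Q.Y a = - Q.Y θ₀ := by
        apply abs_eq_abs.mp
        rw [ha1.1, h01.1]
      have hsq : T a ^ 2 = T θ₀ ^ 2 := by
        rw [hT]
        simp only
        rw [SMF_sq Q a (re a) N (hre a) ha1.2, SMF_sq Q θ₀ (re θ₀) N (hre θ₀) h01.2]
        have h3 : Q.Y a ^ 2 = Q.Y θ₀ ^ 2 := by
          rcases hYY with h | h
          · rw [h]
          · rw [h]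
            ring
        rw [h3]
      have hTT : T a = T θ₀ ∨ T a = - T θ₀ := sq_eq_sq_iff_eq_or_eq_neg.mp hsq
      rw [Finset.mem_coe, Finset.mem_product, Finset.mem_insert, Finset.mem_singleton, Finset.mem_insert,
        Finset.mem_singleton]
      exact ⟨hYY, hTT⟩
    have h1 := Finset.card_le_card_of_injOn _ hmaps hinj
    rw [Finset.card_product] at h1
    have h2 : ({Q.Y θ₀, - Q.Y θ₀} : Finset ℤ).card ≤ 2 := Finset.card_le_two
    have h3 : ({T θ₀, - T θ₀} : Finset ℤ).card ≤ 2 := Finset.card_le_two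
    calc S.card ≤ _ := h1
      _ ≤ 2 * 2 := Nat.mul_le_mul h2 h3
      _ = 4 := by norm_num

/-- `sl p z ≥ p` -/
theorem SMF_sl (p z : ℕ) (hp : p.Prime) : p ≤ sl p z := by
  have h1 : Pool.Agent.helper28.LT.rad p = p := by
    unfold Pool.Agent.helper28.LT.rad
    rw [Nat.Prime.primeFactors hp, Finset.prod_singleton]
  have hg : Nat.gcd p (z ^ 2) ∣ p := Nat.gcd_dvd_left _ _
  have hpos : 0 < p / Nat.gcd p (z ^ 2) := Nat.div_pos (Nat.le_of_dvd hp.pos hg) (Nat.gcd_pos_of_pos_left _ hp.pos)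
  unfold sl
  rw [h1]
  exact Nat.le_of_dvd (Nat.lcm_pos hp.pos hpos) (Nat.dvd_lcm_left _ _)

theorem SMF (hAELE : AELE_stmt) (hOGT : OGT_stmt) : SMF_stmt := by
  classical
  intro K _ _ Q p x X hD hp hp5 hX F hF
  have hD0 : Q.D ≠ 0 := Q.D_ne_zero
  have hsD : 0 < √|(Q.D : ℝ)| := by
    apply Real.sqrt_pos.mpr
    apply abs_pos.mpr
    exact_mod_cast hD0
  have hp0 : (0 : ℝ) < p := by exact_mod_cast hp.pos
  have hA : ∀ t : Tpl, ∃ θ : 𝓞 K, t ∈ F → (∃ α γ u v θ' : 𝓞 K, Els Q p t α γ u v θ θ') := by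
    intro t
    by_cases ht : t ∈ F
    · obtain ⟨h1, h2, h3, h4, h5, h6⟩ := hF t ht
      obtain ⟨α, γ, u, v, θ, θ', hE⟩ := hAELE K Q p t h1 hp.one_le h5 h2.ne' h3.ne'
      exact ⟨θ, fun _ => ⟨α, γ, u, v, θ', hE⟩⟩
    · exact ⟨0, fun h => absurd h ht⟩
  choose Θ hΘ using hA
  have h4 : (F.image Θ).card ≤ 4 := by
    apply SMF_four Q x.2 (x.1 ^ 5)
    intro θ hθ
    obtain ⟨t, ht, rfl⟩ := Finset.mem_image.mp hθ
    obtain ⟨α, γ, u, v, θ', hE⟩ := hΘ t ht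
    obtain ⟨h1, h2, h3, h4, h5, h6⟩ := hF t ht
    have h7 : t.2.2.2 = x.1 := by rw [← h6]; rfl
    have h8 : |(p : ℤ) * RR t| = x.2 := by rw [← h6]; rfl
    refine ⟨?_, ?_⟩
    · rw [hE.yθ, h8]
    · rw [SMF_norm Q p t α γ u v _ θ' hE h3.ne', h7]
  set B : ℝ := 7 * (1 + 2 * Real.pi * X / (p * √|(Q.D : ℝ)|)) with hB
  have hfib : ∀ θ ∈ F.image Θ, ((F.filter fun t => Θ t = θ).card : ℝ) ≤ B := by
    intro θ _
    have h1 := hOGT K Q p x.1.toNat θ X hD hp.one_le (fun q hq hqp => by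
      rw [(Nat.prime_dvd_prime_iff_eq hq hp).mp hqp]
      exact hp5) hX (F.filter fun t => Θ t = θ) (by
      intro t ht
      rw [Finset.mem_filter] at ht
      obtain ⟨ht, rfl⟩ := ht
      obtain ⟨h1, h2, h3, h4, h5, h6⟩ := hF t ht
      have h7 : t.2.2.2 = x.1 := by rw [← h6]; rfl
      refine ⟨h1, h2, ?_, h3, h4, hΘ t ht⟩
      rw [Int.toNat_of_nonneg (by omega), h7])
    refine h1.trans ?_
    rw [Nat.Prime.primeFactors hp, Finset.card_singleton, pow_one, hB]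
    have h2 : (p : ℝ) ≤ (sl p x.1.toNat : ℝ) := by exact_mod_cast SMF_sl p _ hp
    have h3 : 2 * Real.pi * X / ((sl p x.1.toNat : ℝ) * √|(Q.D : ℝ)|) ≤ 2 * Real.pi * X / (p * √|(Q.D : ℝ)|) := by
      apply div_le_div_of_nonneg_left
      · positivity
      · positivity
      · exact mul_le_mul_of_nonneg_right h2 hsD.le
    linarith
  have hB0 : 0 ≤ B := by rw [hB]; positivity
  have h5 : (F.card : ℝ) ≤ ∑ θ ∈ F.image Θ, B := by
    have h6 := Finset.card_eq_sum_card_image Θ F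
    rw [h6]
    push_cast
    exact Finset.sum_le_sum hfib
  rw [Finset.sum_const, nsmul_eq_mul] at h5
  calc (F.card : ℝ) ≤ ((F.image Θ).card : ℝ) * B := h5
    _ ≤ 4 * B := by
      apply mul_le_mul_of_nonneg_right _ hB0
      exact_mod_cast h4
    _ = _ := by rw [hB]; ring

end Pool.Agent.T7
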